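import Pool.Agent.Y564.QN.Main

set_option autoImplicit false

namespace Pool.Agent.Y564.QN

noncomputable section

/-- the free group of rank three -/
abbrev F := FreeGroup (Fin 3)

open FreeGroup (of)

/-- the admissible homomorphisms -/
def X (ℓ : ℕ) : Type := {φ : F →* H ℓ // ∀ (α : MulAut F) (j : Fin 3), (φ (α (of j))).g.a ≠ 0}

instance (ℓ : ℕ) [NeZero ℓ] : Finite (F →* H ℓ) :=
  Finite.of_equiv _ (FreeGroup.lift (α := Fin 3) (β := H ℓ))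

instance (ℓ : ℕ) [NeZero ℓ] : Finite (X ℓ) := by
  unfold X; infer_instance

/-- the action on admissible homomorphisms by precomposition -/
def ρ (ℓ : ℕ) : MulAut F →* Equiv.Perm (X ℓ) where
  toFun α :=
    { toFun := fun φ => ⟨φ.1.comp (α⁻¹ : MulAut F).toMonoidHom, fun β j => φ.2 (α⁻¹ * β) j⟩
      invFun := fun φ => ⟨φ.1.comp (α : MulAut F).toMonoidHom, fun β j => φ.2 (α * β) j⟩
      left_inv := by
        intro φ
        apply Subtype.ext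
        apply MonoidHom.ext
        intro x
        change φ.1 (α⁻¹ (α x)) = φ.1 x
        rw [MulAut.inv_apply_self]
      right_inv := by
        intro φ
        apply Subtype.ext
        apply MonoidHom.ext
        intro x
        change φ.1 (α (α⁻¹ x)) = φ.1 x
        rw [MulAut.apply_inv_self] }
  map_one' := by
    apply Equiv.ext
    intro φ
    apply Subtype.ext
    apply MonoidHom.ext
    intro x
    change φ.1 ((1 : MulAut F)⁻¹ x) = φ.1 x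
    rw [inv_one]; rfl
  map_mul' α β := by
    apply Equiv.ext
    intro φ
    apply Subtype.ext
    apply MonoidHom.ext
    intro x
    change φ.1 ((α * β)⁻¹ x) = φ.1 (β⁻¹ (α⁻¹ x))
    rw [mul_inv_rev]; rfl

lemma ρ_apply (ℓ : ℕ) (α : MulAut F) (φ : X ℓ) (x : F) :
    (ρ ℓ α φ).1 x = φ.1 (α⁻¹ x) := rfl

/-- the Nielsen move -/
def σ : MulAut F :=
  MonoidHom.toMulEquiv
    (FreeGroup.lift ![of 1 * of 0, of 1, of 2])
    (FreeGroup.lift ![(of 1)⁻¹ * of 0, of 1, of 2])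
    (by
      apply FreeGroup.ext_hom
      intro j
      fin_cases j <;> simp)
    (by
      apply FreeGroup.ext_hom
      intro j
      fin_cases j <;> simp)

lemma σ_0 : σ (of 0) = of 1 * of 0 := by simp [σ]
lemma σ_1 : σ (of 1) = of 1 := by simp [σ]
lemma σ_2 : σ (of 2) = of 2 := by simp [σ]

lemma σ_ne (k : Fin 3) (hk : k ≠ 0) : σ (of k) = of k := by
  fin_cases k
  · exact absurd rfl hk
  · exact σ_1
  · exact σ_2

lemma σ_pow_0 (n : ℕ) : (σ ^ n) (of 0) = (of 1) ^ n * of 0 := by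
  induction n with
  | zero => simp
  | succ n ih =>
    rw [pow_succ', MulAut.mul_apply, ih, map_mul, map_pow, σ_0, σ_1, pow_succ, mul_assoc]

lemma σ_pow_ne (n : ℕ) (k : Fin 3) (hk : k ≠ 0) : (σ ^ n) (of k) = of k := by
  induction n with
  | zero => simp
  | succ n ih =>
    rw [pow_succ', MulAut.mul_apply, ih, σ_ne k hk]

lemma ρ_σ (ℓ : ℕ) : ρ ℓ (σ ^ 9) = 1 := by
  rw [← inv_eq_one, ← map_inv]
  apply Equiv.ext
  intro φ
  apply Subtype.ext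
  apply FreeGroup.ext_hom
  intro k
  rw [ρ_apply, inv_inv]
  change φ.1 ((σ ^ 9) (of k)) = φ.1 (of k)
  by_cases hk : k = 0
  · subst hk
    have h9 : (φ.1 (of 1)) ^ 9 = 1 := H.ninth _ (φ.2 1 1)
    rw [σ_pow_0, map_mul, map_pow, h9, one_mul]
  · rw [σ_pow_ne 9 k hk]

/-- a basis of the field with 27 elements -/
def bK : Module.Basis (Fin 3) (ZMod 3) K := by
  refine Module.finBasisOfFinrankEq (ZMod 3) K ?_
  exact GaloisField.finrank 3 (by norm_num)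

/-- the elements of G -/
def gg (i : Fin 3) : G := ⟨bK i, 0, 0⟩

open Classical in
/-- the basic function -/
def δ (ℓ : ℕ) (h : G) : ZMod ℓ := (if h = 1 then 1 else 0) - (if h = Z then 1 else 0)

lemma Z_ne_one : Z ≠ 1 := by
  intro h
  have := congrArg G.c h
  exact one_ne_zero (α := K) this

lemma δ_one (ℓ : ℕ) : δ ℓ 1 = 1 := by
  simp [δ, Z_ne_one.symm]

lemma δ_Z (ℓ : ℕ) : δ ℓ Z = -1 := by
  simp [δ, Z_ne_one]

lemma δ_ne (ℓ : ℕ) (h : G) (h1 : h ≠ 1) (hZ : h ≠ Z) : δ ℓ h = 0 := by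
  simp [δ, h1, hZ]

lemma δ_a (ℓ : ℕ) (h : G) (ha : h.a ≠ 0) : δ ℓ h = 0 := by
  apply δ_ne
  · rintro rfl; exact ha rfl
  · rintro rfl; exact ha rfl

lemma ZZ_ne_one : Z * Z ≠ 1 := by
  intro h
  have h3 := Z_cube
  rw [h, one_mul] at h3
  exact Z_ne_one h3

lemma ZZ_ne_Z : Z * Z ≠ Z := by
  intro h
  exact Z_ne_one (mul_eq_left.1 h)

lemma δ_ZZ (ℓ : ℕ) : δ ℓ (Z * Z) = 0 := δ_ne _ _ ZZ_ne_one ZZ_ne_Z

lemma δ_sum (ℓ : ℕ) (h : G) : δ ℓ h + δ ℓ (h * Z) + δ ℓ (h * Z * Z) = 0 := by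
  have e1 : (h * Z = 1) ↔ h = Z * Z := by
    constructor
    · intro e
      have : h * (Z * Z * Z) = Z * Z := by
        calc h * (Z * Z * Z) = (h * Z) * (Z * Z) := by simp only [mul_assoc]
          _ = Z * Z := by rw [e, one_mul]
      rwa [Z_cube, mul_one] at this
    · rintro rfl; exact Z_cube
  have e2 : (h * Z = Z) ↔ h = 1 := mul_eq_right
  have e3 : (h * Z * Z = 1) ↔ h = Z := by
    constructor
    · intro e
      have : h * (Z * Z * Z) = Z := by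
        calc h * (Z * Z * Z) = (h * Z * Z) * Z := by simp only [mul_assoc]
          _ = Z := by rw [e, one_mul]
      rwa [Z_cube, mul_one] at this
    · rintro rfl; exact Z_cube
  have e4 : (h * Z * Z = Z) ↔ h = Z * Z := by
    constructor
    · intro e
      exact e1.1 (mul_eq_right.1 e)
    · rintro rfl; rw [Z_cube, one_mul]
  by_cases c1 : h = 1
  · rw [c1, one_mul, δ_one, δ_Z, δ_ZZ]; ring
  by_cases c2 : h = Z
  · rw [c2, Z_cube, δ_one, δ_Z, δ_ZZ]; ring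
  by_cases c3 : h = Z * Z
  · rw [c3, Z_cube, one_mul, δ_one, δ_Z, δ_ZZ]; ring
  rw [δ_ne ℓ h c1 c2, δ_ne ℓ _ (fun e => c3 (e1.1 e)) (fun e => c1 (e2.1 e)),
    δ_ne ℓ _ (fun e => c2 (e3.1 e)) (fun e => c3 (e4.1 e))]
  ring

/-- the images of the generators -/
def y0 (ℓ : ℕ) : H ℓ := ⟨δ ℓ, gg 0, δ_sum ℓ⟩

def yy (ℓ : ℕ) (j : Fin 3) : H ℓ := ⟨fun _ => 0, gg j, fun _ => by rw [add_zero, add_zero]⟩

/-- the homomorphism -/
def φ0 (ℓ : ℕ) : F →* H ℓ := FreeGroup.lift ![y0 ℓ, yy ℓ 1, yy ℓ 2]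

lemma φ0_0 (ℓ : ℕ) : φ0 ℓ (of 0) = y0 ℓ := by simp [φ0]
lemma φ0_1 (ℓ : ℕ) : φ0 ℓ (of 1) = yy ℓ 1 := by simp [φ0]

lemma φ0_g (ℓ : ℕ) (j : Fin 3) : (φ0 ℓ (of j)).g = gg j := by
  unfold φ0
  rw [FreeGroup.lift_apply_of]
  fin_cases j <;> rfl

lemma admissible (ℓ : ℕ) (α : MulAut F) (j : Fin 3) : (φ0 ℓ (α (of j))).g.a ≠ 0 := by
  intro h0
  let χ : F →* Multiplicative (ZMod 3) :=
    FreeGroup.lift (fun i => Multiplicative.ofAdd (if i = j then 1 else 0))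
  let χ' : F →* Multiplicative (ZMod 3) := χ.comp (α⁻¹ : MulAut F).toMonoidHom
  let L : K →ₗ[ZMod 3] ZMod 3 := bK.constr (ZMod 3) (fun i => Multiplicative.toAdd (χ' (of i)))
  let L' : Multiplicative K →* Multiplicative (ZMod 3) := AddMonoidHom.toMultiplicative L.toAddMonoidHom
  have key : (L'.comp H.π).comp (φ0 ℓ) = χ' := by
    apply FreeGroup.ext_hom
    intro i
    change Multiplicative.ofAdd (L (φ0 ℓ (of i)).g.a) = χ' (of i)
    rw [φ0_g]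
    change Multiplicative.ofAdd (L (bK i)) = _
    rw [Module.Basis.constr_basis]
    rfl
  have h1 := DFunLike.congr_fun key (α (of j))
  have h2 : χ' (α (of j)) = Multiplicative.ofAdd 1 := by
    change χ (α⁻¹ (α (of j))) = _
    rw [MulAut.inv_apply_self]
    simp [χ]
  have h3 : ((L'.comp H.π).comp (φ0 ℓ)) (α (of j)) = Multiplicative.ofAdd 0 := by
    change Multiplicative.ofAdd (L (φ0 ℓ (α (of j))).g.a) = _
    rw [h0, map_zero]
  rw [h2, h3] at h1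
  have := Multiplicative.ofAdd.injective h1
  exact absurd this (by decide)

/-- the admissible homomorphism -/
def φX (ℓ : ℕ) : X ℓ := ⟨φ0 ℓ, admissible ℓ⟩

/-- the word which acts with large order -/
def w : F := (of 0) ^ 3 * of 1 * ((of 0) ^ 3)⁻¹ * (of 1)⁻¹

lemma A_f (ℓ : ℕ) (h : G) : (φ0 ℓ (of 0 ^ 3)).f h = δ ℓ h + δ ℓ (h * gg 0) + δ ℓ (h * gg 0 * gg 0) := by
  rw [map_pow, φ0_0, pow_succ, pow_succ, pow_one]
  simp only [H.mul_f, H.mul_g, ← mul_assoc]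
  rfl

lemma A_g (ℓ : ℕ) : (φ0 ℓ (of 0 ^ 3)).g = gg 0 * gg 0 * gg 0 := by
  rw [map_pow, φ0_0, pow_succ, pow_succ, pow_one]
  rfl

lemma A_g' : gg 0 * gg 0 * gg 0 = Z ∨ gg 0 * gg 0 * gg 0 = Z * Z := by
  have h := cube_eq (gg 0) (bK.ne_zero 0)
  rwa [pow_succ, pow_succ, pow_one] at h

lemma A_g_comm (h : G) : gg 0 * gg 0 * gg 0 * h = h * (gg 0 * gg 0 * gg 0) := by
  rcases A_g' with e | e
  · rw [e, Z_comm]
  · rw [e, mul_assoc, Z_comm, ← mul_assoc, Z_comm, mul_assoc]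

lemma W_g (ℓ : ℕ) : (φ0 ℓ w).g = 1 := by
  have e1 : (φ0 ℓ w) = φ0 ℓ (of 0 ^ 3) * φ0 ℓ (of 1) * (φ0 ℓ (of 0 ^ 3))⁻¹ * (φ0 ℓ (of 1))⁻¹ := by
    simp only [w, map_mul, map_inv]
  rw [e1]
  simp only [H.mul_g, H.inv_g, A_g, A_g_comm]
  group

lemma W_f (ℓ : ℕ) (h : G) : (φ0 ℓ w).f h = (φ0 ℓ (of 0 ^ 3)).f h - (φ0 ℓ (of 0 ^ 3)).f (h * gg 1) := by
  have e1 : (φ0 ℓ w) = φ0 ℓ (of 0 ^ 3) * φ0 ℓ (of 1) * (φ0 ℓ (of 0 ^ 3))⁻¹ * (φ0 ℓ (of 1))⁻¹ := by
    simp only [w, map_mul, map_inv]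
  rw [e1, φ0_1]
  simp only [H.mul_f, H.mul_g, H.inv_f, H.inv_g, A_g]
  have e2 : h * (gg 0 * gg 0 * gg 0 * (yy ℓ 1).g) * (gg 0 * gg 0 * gg 0)⁻¹ = h * gg 1 := by
    rw [A_g_comm]
    change h * (gg 1 * _) * _ = _
    group
  rw [e2]
  simp [yy]
  ring

lemma W_pow (ℓ : ℕ) (k : ℕ) : (φ0 ℓ (w ^ k)).g = 1 ∧ ∀ h, (φ0 ℓ (w ^ k)).f h = k * (φ0 ℓ w).f h := by
  induction k with
  | zero => simp
  | succ k ih =>
    rw [pow_succ, map_mul]
    refine ⟨by rw [H.mul_g, ih.1, W_g, one_mul], ?_⟩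
    intro h
    rw [H.mul_f, ih.1, ih.2, mul_one]
    push_cast
    ring

lemma bK_add_ne (i j : Fin 3) (hij : i ≠ j) (c : ZMod 3) : bK i + c • bK j ≠ 0 := by
  intro h
  have h1 := congrArg (fun x => bK.repr x i) h
  simp [hij] at h1

lemma A_f_gen (ℓ : ℕ) (h : G) (h0 : h.a ≠ 0) (h1 : (h * gg 0).a ≠ 0) (h2 : (h * gg 0 * gg 0).a ≠ 0) :
    (φ0 ℓ (of 0 ^ 3)).f h = 0 := by
  rw [A_f, δ_a _ _ h0, δ_a _ _ h1, δ_a _ _ h2]
  simp

lemma two_ne : (2 : K) ≠ 0 := by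
  intro h
  have h3 := three_eq
  have : (1 : K) = 0 := by linear_combination h3 - h
  exact one_ne_zero this

lemma A_f_central (ℓ : ℕ) (h : G) (h0 : h.a = 0) : (φ0 ℓ (of 0 ^ 3)).f h = δ ℓ h := by
  have hb : bK 0 ≠ 0 := bK.ne_zero 0
  rw [A_f, δ_a _ (h * gg 0), δ_a _ (h * gg 0 * gg 0)]
  · simp
  · simp only [G.mul_a, h0, gg, zero_add, ← two_mul]
    exact mul_ne_zero two_ne hb
  · simp only [G.mul_a, h0, gg, zero_add]
    exact hb

lemma A_f_1 (ℓ : ℕ) (h : G) (h0 : h.a = 0) : (φ0 ℓ (of 0 ^ 3)).f (h * gg 1) = 0 := by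
  have hb : bK 1 ≠ 0 := bK.ne_zero 1
  apply A_f_gen
  · simp only [G.mul_a, h0, gg, zero_add]
    exact hb
  · simp only [G.mul_a, h0, gg, zero_add]
    have := bK_add_ne 1 0 (by decide) 1
    rwa [one_smul] at this
  · simp only [G.mul_a, h0, gg, zero_add]
    have := bK_add_ne 1 0 (by decide) 2
    rw [two_smul, ← add_assoc] at this
    exact this

lemma W_f_central (ℓ : ℕ) (h : G) (h0 : h.a = 0) : (φ0 ℓ w).f h = δ ℓ h := by
  rw [W_f, A_f_central _ _ h0, A_f_1 _ _ h0, sub_zero]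

lemma order_key (ℓ : ℕ) (hℓ : ℓ.Prime) (h3 : 3 ≤ ℓ) (k : ℕ) (hk : (ρ ℓ (MulAut.conj w)) ^ k = 1) : ℓ ∣ k := by
  rw [← map_pow, ← inv_eq_one, ← map_inv] at hk
  have h1 : ((ρ ℓ ((MulAut.conj w ^ k)⁻¹)) (φX ℓ)).1 (of 0 ^ 3) = (φX ℓ).1 (of 0 ^ 3) := by
    rw [hk]; rfl
  rw [ρ_apply, inv_inv, ← map_pow, MulAut.conj_apply, map_mul, map_mul, map_inv] at h1
  change φ0 ℓ (w ^ k) * φ0 ℓ (of 0 ^ 3) * (φ0 ℓ (w ^ k))⁻¹ = φ0 ℓ (of 0 ^ 3) at h1
  rw [mul_inv_eq_iff_eq_mul] at h1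
  have h2 := congrArg (fun y => H.f y 1) h1
  simp only [H.mul_f, (W_pow ℓ k).1, (W_pow ℓ k).2, mul_one, one_mul, A_g] at h2
  rw [W_f_central _ 1 rfl, δ_one] at h2
  have hfact : Fact ℓ.Prime := ⟨hℓ⟩
  have h4 : (k : ZMod ℓ) = 0 := by
    rcases A_g' with e | e
    · rw [e, W_f_central _ Z rfl, δ_Z] at h2
      have h5 : (k : ZMod ℓ) * 2 = 0 := by linear_combination h2
      rcases mul_eq_zero.1 h5 with h | h
      · exact h
      · exfalso
        have : ((2 : ℕ) : ZMod ℓ) = 0 := by exact_mod_cast h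
        rw [ZMod.natCast_eq_zero_iff] at this
        have := Nat.le_of_dvd (by norm_num) this
        omega
    · rw [e, W_f_central _ (Z * Z) (by change (0 : K) + 0 = 0; simp), δ_ZZ] at h2
      linear_combination h2
  exact (ZMod.natCast_eq_zero_iff _ _).1 h4

lemma dvd_orderOf (ℓ : ℕ) (hℓ : ℓ.Prime) (h3 : 3 ≤ ℓ) : ℓ ∣ orderOf (ρ ℓ (MulAut.conj w)) :=
  order_key ℓ hℓ h3 _ (pow_orderOf_eq_one _)

/-- the normal closure of the ninth power -/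
abbrev NC : Subgroup (MulAut F) := Subgroup.normalClosure ({σ ^ 9} : Set (MulAut F))

/-- the induced action of the quotient -/
def ρbar (ℓ : ℕ) : MulAut F ⧸ NC →* Equiv.Perm (X ℓ) :=
  QuotientGroup.lift NC (ρ ℓ) (by
    have : NC ≤ (ρ ℓ).ker := by
      apply Subgroup.normalClosure_le_normal
      intro x hx
      rw [Set.mem_singleton_iff] at hx
      rw [hx]
      exact ρ_σ ℓ
    intro x hx
    exact this hx)

theorem infinite_quotients :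
    Set.Infinite {N : Subgroup (MulAut F ⧸ NC) | N.Normal ∧ N.FiniteIndex} := by
  intro hfin
  obtain ⟨M, hM⟩ := (hfin.image (fun N => N.index)).bddAbove
  obtain ⟨ℓ, hℓ1, hℓ⟩ := Nat.exists_infinite_primes (M + 3)
  have : NeZero ℓ := ⟨hℓ.ne_zero⟩
  have hker : (ρbar ℓ).ker.FiniteIndex := inferInstance
  have hmem : (ρbar ℓ).ker ∈ {N : Subgroup (MulAut F ⧸ NC) | N.Normal ∧ N.FiniteIndex} :=
    ⟨inferInstance, hker⟩
  have h1 : (ρbar ℓ).ker.index ≤ M := hM (Set.mem_image_of_mem _ hmem)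
  have h2 : ℓ ∣ (ρbar ℓ).ker.index := by
    rw [Subgroup.index_ker]
    have e : ρ ℓ (MulAut.conj w) = ρbar ℓ (QuotientGroup.mk (MulAut.conj w)) := rfl
    have h3 := dvd_orderOf ℓ hℓ (by omega)
    rw [e] at h3
    have h4 := orderOf_dvd_natCard ((ρbar ℓ).rangeRestrict (QuotientGroup.mk (MulAut.conj w)))
    have h5 : orderOf ((ρbar ℓ).rangeRestrict (QuotientGroup.mk (MulAut.conj w))) =
        orderOf (ρbar ℓ (QuotientGroup.mk (MulAut.conj w))) := by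
      rw [← Subgroup.orderOf_coe]; rfl
    rw [h5] at h4
    exact h3.trans h4
  have h5 : 0 < (ρbar ℓ).ker.index := Nat.pos_of_ne_zero hker.index_ne_zero
  have := Nat.le_of_dvd h5 h2
  omega

end

end Pool.Agent.Y564.QN
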