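import Mathlib

/-!
# Quotients of Aut(F_3) by ninth powers of Nielsen moves have infinitely many finite quotients

`G` is the group of principal units of the truncated twisted polynomial ring over the field with
27 elements; the cube of an element with nonzero linear coefficient is a central element of order 3.
-/

set_option autoImplicit false

namespace Pool.Agent.Y564.QN

noncomputable section

/-- the field with 27 elements -/
abbrev K := GaloisField 3 3

lemma cube_add (x y : K) : (x + y) ^ 3 = x ^ 3 + y ^ 3 := add_pow_char x y 3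

lemma ninth_add (x y : K) : (x + y) ^ 9 = x ^ 9 + y ^ 9 := by
  have h : ∀ t : K, t ^ 9 = (t ^ 3) ^ 3 := fun t => by rw [← pow_mul]
  rw [h, cube_add, cube_add, ← h, ← h]

lemma three_eq : (3 : K) = 0 := by
  have := CharP.cast_eq_zero K 3
  exact_mod_cast this

/-- the group 1 + a t + b t^2 + c t^3 -/
@[ext] structure G where
  a : K
  b : K
  c : K

namespace G

instance : Mul G := ⟨fun x y => ⟨x.a + y.a, x.b + y.b + x.a * y.a ^ 3,
  x.c + y.c + x.b * y.a ^ 9 + x.a * y.b ^ 3⟩⟩
instance : One G := ⟨⟨0, 0, 0⟩⟩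
instance : Inv G := ⟨fun x => ⟨-x.a, -x.b + x.a ^ 4, -x.c + x.b * x.a ^ 9 + x.a * x.b ^ 3 - x.a ^ 13⟩⟩

@[simp] lemma mul_a (x y : G) : (x * y).a = x.a + y.a := rfl
@[simp] lemma mul_b (x y : G) : (x * y).b = x.b + y.b + x.a * y.a ^ 3 := rfl
@[simp] lemma mul_c (x y : G) : (x * y).c = x.c + y.c + x.b * y.a ^ 9 + x.a * y.b ^ 3 := rfl
@[simp] lemma one_a : (1 : G).a = 0 := rfl
@[simp] lemma one_b : (1 : G).b = 0 := rfl
@[simp] lemma one_c : (1 : G).c = 0 := rfl

instance : Group G := Group.ofLeftAxioms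
  (by
    intro x y z
    ext
    · simp; ring
    · simp [cube_add]; ring
    · simp only [mul_a, mul_b, mul_c, cube_add, ninth_add]
      ring)
  (by
    intro x
    ext <;> simp)
  (by
    intro x
    have h3 : ∀ t : K, (-t) ^ 3 = -(t ^ 3) := fun t => by ring
    ext
    · change -x.a + x.a = 0
      ring
    · change -x.b + x.a ^ 4 + x.b + -x.a * x.a ^ 3 = 0
      ring
    · change -x.c + x.b * x.a ^ 9 + x.a * x.b ^ 3 - x.a ^ 13 + x.c +
        (-x.b + x.a ^ 4) * x.a ^ 9 + -x.a * x.b ^ 3 = 0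
      ring)

noncomputable def equiv : G ≃ K × K × K where
  toFun x := (x.a, x.b, x.c)
  invFun t := ⟨t.1, t.2.1, t.2.2⟩
  left_inv _ := rfl
  right_inv _ := rfl

instance : Finite G := Finite.of_equiv _ equiv.symm

/-- central elements -/
def Zc (t : K) : G := ⟨0, 0, t⟩

lemma Zc_comm (t : K) (x : G) : Zc t * x = x * Zc t := by
  ext <;> simp [Zc, add_comm]

lemma Zc_mul (s t : K) : Zc s * Zc t = Zc (s + t) := by
  ext <;> simp [Zc]

lemma cube (x : G) : x ^ 3 = Zc (x.a ^ 13) := by
  rw [pow_succ, pow_succ, pow_one]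
  have h3 := three_eq
  ext
  · simp only [mul_a, Zc]
    linear_combination x.a * h3
  · simp only [mul_a, mul_b, Zc]
    linear_combination (x.b + x.a ^ 4) * h3
  · simp only [mul_a, mul_b, mul_c, Zc]
    linear_combination (x.c + x.b * x.a ^ 9 + x.a * x.b ^ 3) * h3

lemma pow_a (x : G) (n : ℕ) : (x ^ n).a = n * x.a := by
  induction n with
  | zero => simp
  | succ n ih => rw [pow_succ, mul_a, ih]; push_cast; ring

end G

/-- the generator of the centre which is used -/
def Z : G := G.Zc 1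

lemma Z_comm (x : G) : Z * x = x * Z := G.Zc_comm 1 x

lemma Z_cube : Z * Z * Z = 1 := by
  rw [Z, G.Zc_mul, G.Zc_mul]
  have : (1 : K) + 1 + 1 = 0 := by
    have := three_eq
    linear_combination this
  rw [this]; rfl

lemma card_K : Nat.card K = 27 := by
  have := GaloisField.card 3 3 (by norm_num)
  rw [this]; norm_num

lemma pow_thirteen {a : K} (ha : a ≠ 0) : a ^ 13 = 1 ∨ a ^ 13 = 2 := by
  have hf : Fintype K := Fintype.ofFinite K
  have h1 := FiniteField.pow_card_sub_one_eq_one a ha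
  have h2 : Fintype.card K = 27 := by rw [← Nat.card_eq_fintype_card, card_K]
  rw [h2] at h1
  have h3 : (a ^ 13 - 1) * (a ^ 13 - 2) = 0 := by
    have h26 : a ^ 26 = 1 := h1
    linear_combination h26 + (1 - a ^ 13) * three_eq
  rcases mul_eq_zero.1 h3 with h | h
  · left; exact sub_eq_zero.1 h
  · right; exact sub_eq_zero.1 h

lemma cube_eq (x : G) (hx : x.a ≠ 0) : x ^ 3 = Z ∨ x ^ 3 = Z * Z := by
  rw [G.cube]
  rcases pow_thirteen hx with h | h
  · left; rw [h]; rfl
  · right; rw [h, Z, G.Zc_mul]; norm_num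

/-- extensions of `G` by the functions summing to zero on cosets of the centre -/
@[ext] structure H (ℓ : ℕ) where
  f : G → ZMod ℓ
  g : G
  hf : ∀ h, f h + f (h * Z) + f (h * Z * Z) = 0

namespace H

variable {ℓ : ℕ}

instance : Mul (H ℓ) := ⟨fun x y => ⟨fun h => x.f h + y.f (h * x.g), x.g * y.g, by
  intro h
  have h1 := x.hf h
  have h2 := y.hf (h * x.g)
  have e1 : h * Z * x.g = h * x.g * Z := by rw [mul_assoc, Z_comm, mul_assoc]
  have e2 : h * Z * Z * x.g = h * x.g * Z * Z := by
    rw [mul_assoc, Z_comm, ← mul_assoc, e1]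
  simp only [e1, e2]
  linear_combination h1 + h2⟩⟩
instance : One (H ℓ) := ⟨⟨fun _ => 0, 1, by simp⟩⟩
instance : Inv (H ℓ) := ⟨fun x => ⟨fun h => - x.f (h * x.g⁻¹), x.g⁻¹, by
  intro h
  have h2 := x.hf (h * x.g⁻¹)
  have e1 : h * Z * x.g⁻¹ = h * x.g⁻¹ * Z := by rw [mul_assoc, Z_comm, mul_assoc]
  have e2 : h * Z * Z * x.g⁻¹ = h * x.g⁻¹ * Z * Z := by
    rw [mul_assoc, Z_comm, ← mul_assoc, e1]
  simp only [e1, e2]
  linear_combination -h2⟩⟩

@[simp] lemma mul_f (x y : H ℓ) (h : G) : (x * y).f h = x.f h + y.f (h * x.g) := rfl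
@[simp] lemma mul_g (x y : H ℓ) : (x * y).g = x.g * y.g := rfl
@[simp] lemma one_f (h : G) : (1 : H ℓ).f h = 0 := rfl
@[simp] lemma one_g : (1 : H ℓ).g = 1 := rfl
@[simp] lemma inv_f (x : H ℓ) (h : G) : (x⁻¹).f h = - x.f (h * x.g⁻¹) := rfl
@[simp] lemma inv_g (x : H ℓ) : (x⁻¹).g = x.g⁻¹ := rfl

instance : Group (H ℓ) := Group.ofLeftAxioms
  (by
    intro x y z
    ext h
    · simp [mul_assoc, add_assoc]
    all_goals simp [mul_assoc])
  (by
    intro x
    ext h <;> simp)
  (by
    intro x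
    ext h
    · simp
    all_goals simp)

instance [NeZero ℓ] : Finite (H ℓ) := by
  refine Finite.of_injective (fun x : H ℓ => (x.f, x.g)) ?_
  intro x y h
  simp only [Prod.mk.injEq] at h
  exact H.ext h.1 h.2

/-- the projection to the linear coefficient -/
def π : H ℓ →* Multiplicative K where
  toFun x := Multiplicative.ofAdd x.g.a
  map_one' := by simp
  map_mul' x y := by simp

lemma cube_one (y : H ℓ) (hy : y.g = Z ∨ y.g = Z * Z) : y ^ 3 = 1 := by
  rw [pow_succ, pow_succ, pow_one]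
  rcases hy with hy | hy
  · ext h
    · have := y.hf h
      simp only [mul_f, mul_g, one_f, hy, ← mul_assoc]
      exact this
    all_goals simp only [mul_g, hy, Z_cube, one_g]
  · have hZ : ∀ h : G, h * Z * Z * Z * Z = h * Z := by
      intro h
      have := Z_cube
      calc h * Z * Z * Z * Z = h * (Z * Z * Z) * Z := by simp only [mul_assoc]
        _ = h * Z := by rw [this, mul_one]
    ext h
    · have := y.hf h
      simp only [mul_f, mul_g, one_f, hy, ← mul_assoc, hZ]
      linear_combination this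
    all_goals
      have e : Z * Z * (Z * Z) * (Z * Z) = (Z * Z * Z) * (Z * Z * Z) := by simp only [mul_assoc]
      simp only [mul_g, hy, e, Z_cube, one_g, mul_one]

lemma ninth (x : H ℓ) (hx : x.g.a ≠ 0) : x ^ 9 = 1 := by
  have h9 : x ^ 9 = (x ^ 3) ^ 3 := by rw [← pow_mul]
  rw [h9]
  apply cube_one
  have : (x ^ 3).g = x.g ^ 3 := by
    rw [pow_succ, pow_succ, pow_one, pow_succ, pow_succ, pow_one]; rfl
  rw [this]
  exact cube_eq _ hx

end H

end

end Pool.Agent.Y564.QN
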